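import Pool.Agent.Helper75.KM.StmtsC

/-!
# KM: module AVG, the average over a tube by discrete lines
-/

set_option autoImplicit false

namespace Pool.Agent.Helper75.KM

open Pool.Agent.Helper8.Kak Pool.Agent.Helper89.KakGeo
open MeasureTheory
open scoped ENNReal

theorem avg_cover (hT : ST_TUBE) (m N : ℕ) (δ : ℝ) (h0 : 0 < δ) (h1 : δ < 1)
    (h2 : δ ≤ 2 * (1 / 2) ^ N) (i : Fin (m + 1)) (a ω : EE (m + 1)) (hω : ‖ω‖ = 1)
    (hi : ∀ j, |ω j| ≤ |ω i|) :
    tube δ a ω ⊆ ⋃ p : ↥((Finset.Icc (⌊a i⌋ - 2) (⌊a i⌋ + 2)) ×ˢ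
      ((Fintype.piFinset (fun _ : Fin m => Finset.Icc (-6 : ℤ) 6)) ×ˢ
        (Finset.univ : Finset (Fin (2 ^ N))))),
      cube N (idx N i p.1.1 p.1.2.2 (ptn N (fun _ : Unit => posn a ω i p.1.1)
        (fun _ : Unit => slope ω i) () p.1.2.2 + p.1.2.1)) := by
  intro y hy
  set A : ℤ := ⌊y i * 2 ^ N⌋ with hA
  have hpos : (0 : ℤ) < 2 ^ N := by positivity
  have hm0 := Int.emod_nonneg A hpos.ne'
  have hm1 := Int.emod_lt_of_pos A hpos
  set z : ℤ := A / 2 ^ N with hz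
  obtain ⟨tn, htn⟩ := Int.eq_ofNat_of_zero_le hm0
  have htlt : tn < 2 ^ N := by
    have : (tn : ℤ) < 2 ^ N := by rw [← htn]; exact hm1
    exact_mod_cast this
  set t : Fin (2 ^ N) := ⟨tn, htlt⟩ with ht
  have hAz : A = z * 2 ^ N + ((t : ℕ) : ℤ) := by
    have := Int.emod_add_mul_ediv A (2 ^ N)
    rw [ht]
    simp only
    rw [hz, ← htn]
    linarith
  obtain ⟨t1, t2⟩ := hT m N δ h0 h1 h2 i a ω hω hi y hy z t hAz
  set P := ptn N (fun _ : Unit => posn a ω i z) (fun _ : Unit => slope ω i) () t with hP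
  set e : Fin m → ℤ := fun k => ⌊y (i.succAbove k) * 2 ^ N⌋ - P k with he
  rw [Set.mem_iUnion]
  refine ⟨⟨(z, (e, t)), ?_⟩, ?_⟩
  · rw [Finset.mem_product, Finset.mem_product]
    refine ⟨?_, ?_, Finset.mem_univ _⟩
    · rw [Finset.mem_Icc]
      rw [abs_le] at t1
      constructor <;> linarith [t1.1, t1.2]
    · rw [Fintype.mem_piFinset]
      intro k
      rw [Finset.mem_Icc]
      have := t2 k
      rw [abs_le] at this
      exact this
  · intro k
    rcases Fin.eq_self_or_eq_succAbove i k with hk | ⟨k', hk⟩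
    · subst hk
      unfold idx
      simp only [Fin.insertNth_apply_same]
      exact hAz
    · subst hk
      unfold idx
      simp only [Fin.insertNth_apply_succAbove, Pi.add_apply]
      rw [← hP, he]
      simp

theorem st_AVG (hV : ST_VOLT) (hT : ST_TUBE) : ST_AVG := by
  intro m
  obtain ⟨c, hc, hvol⟩ := hV m
  refine ⟨c⁻¹, inv_pos.mpr hc, ?_⟩
  intro N δ h0 h1 h3 h2 f i a ω hω hi
  have hV1 : (volume (tube δ a ω))⁻¹ ≤ ENNReal.ofReal c⁻¹ * 2 ^ (N * m) := by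
    have s1 := ENNReal.inv_le_inv.mpr (hvol δ a ω h0 h1 hω)
    rw [← ENNReal.ofReal_inv_of_pos (by positivity)] at s1
    refine s1.trans ?_
    have s2 : (c * δ ^ m)⁻¹ ≤ c⁻¹ * 2 ^ (N * m) := by
      rw [mul_inv]
      refine mul_le_mul_of_nonneg_left ?_ (by positivity)
      rw [inv_le_comm₀ (by positivity) (by positivity)]
      calc ((2 : ℝ) ^ (N * m))⁻¹ = ((1 / 2) ^ N) ^ m := by
            rw [← pow_mul, one_div, inv_pow]
        _ ≤ δ ^ m := by gcongr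
    refine (ENNReal.ofReal_le_ofReal s2).trans ?_
    rw [ENNReal.ofReal_mul (by positivity), ENNReal.ofReal_pow (by norm_num)]
    simp
  have hpsi : ∀ b : Fin (m + 1) → ℤ, ∫⁻ y in cube N b, f y =
      (2 ^ (N * (m + 1)))⁻¹ * psi N f b := by
    intro b
    unfold psi
    rw [← mul_assoc, ENNReal.inv_mul_cancel (by positivity)
      (ENNReal.pow_ne_top ENNReal.ofNat_ne_top), one_mul]
  have hint : ∫⁻ y in tube δ a ω, f y ≤ ∑ z ∈ Finset.Icc (⌊a i⌋ - 2) (⌊a i⌋ + 2),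
          ∑ e ∈ Fintype.piFinset (fun _ : Fin m => Finset.Icc (-6 : ℤ) 6),
            ∑ t : Fin (2 ^ N), (2 ^ (N * (m + 1)))⁻¹ * psi N f (idx N i z t
              (ptn N (fun _ : Unit => posn a ω i z) (fun _ : Unit => slope ω i) () t + e)) := by
    refine (lintegral_mono_set (avg_cover hT m N δ h0 h1 h2 i a ω hω hi)).trans ?_
    refine (lintegral_iUnion_le _ _).trans ?_
    rw [tsum_fintype]
    simp only [hpsi]
    rw [Finset.sum_coe_sort ((Finset.Icc (⌊a i⌋ - 2) (⌊a i⌋ + 2)) ×ˢ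
      ((Fintype.piFinset (fun _ : Fin m => Finset.Icc (-6 : ℤ) 6)) ×ˢ
        (Finset.univ : Finset (Fin (2 ^ N)))))
      (fun p : ℤ × ((Fin m → ℤ) × Fin (2 ^ N)) => (2 ^ (N * (m + 1)))⁻¹ * psi N f
        (idx N i p.1 p.2.2 (ptn N (fun _ : Unit => posn a ω i p.1)
        (fun _ : Unit => slope ω i) () p.2.2 + p.2.1)))]
    rw [Finset.sum_product]
    refine Finset.sum_le_sum fun z _ => ?_
    rw [Finset.sum_product]
  calc (volume (tube δ a ω))⁻¹ * ∫⁻ y in tube δ a ω, f y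
      ≤ (ENNReal.ofReal c⁻¹ * 2 ^ (N * m)) * _ := mul_le_mul' hV1 hint
    _ = _ := by
      simp only [← Finset.mul_sum]
      rw [mul_assoc, ← mul_assoc (2 ^ (N * m))]
      have e1 : ((2 : ℝ≥0∞) ^ (N * m)) * (2 ^ (N * (m + 1)))⁻¹ = (2 ^ N)⁻¹ := by
        have : (2 : ℝ≥0∞) ^ (N * (m + 1)) = 2 ^ (N * m) * 2 ^ N := by
          rw [← pow_add]; congr 1
        rw [this, ENNReal.mul_inv (Or.inl (by positivity))
          (Or.inl (ENNReal.pow_ne_top ENNReal.ofNat_ne_top)), ← mul_assoc,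
          ENNReal.mul_inv_cancel (by positivity) (ENNReal.pow_ne_top ENNReal.ofNat_ne_top),
          one_mul]
      rw [e1]

end Pool.Agent.Helper75.KM
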