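import Pool.Agent.Helper75.KM.StmtsC

/-!
# KM: module SIG, surface measure of a direction cell
-/

set_option autoImplicit false

namespace Pool.Agent.Helper75.KM

open Pool.Agent.Helper8.Kak Pool.Agent.Helper89.KakGeo
open MeasureTheory
open scoped ENNReal Pointwise

theorem sig_box {n : ℕ} (a b : Fin n → ℝ) :
    volume {y : EE n | ∀ k, a k ≤ y k ∧ y k ≤ b k} = ∏ k, ENNReal.ofReal (b k - a k) := by
  have h1 : {y : EE n | ∀ k, a k ≤ y k ∧ y k ≤ b k} =
      (@WithLp.ofLp 2 (Fin n → ℝ)) ⁻¹' (Set.Icc a b) := by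
    ext y
    simp only [Set.mem_ofPred_eq, Set.mem_preimage, Set.mem_Icc, Pi.le_def]
    exact forall_and
  rw [h1, (PiLp.volume_preserving_ofLp (Fin n)).measure_preimage
    measurableSet_Icc.nullMeasurableSet, Real.volume_Icc_pi]

theorem sig_coord {n : ℕ} (k : Fin n) : Measurable (fun y : EE n => y k) :=
  (EuclideanSpace.proj (𝕜 := ℝ) k).continuous.measurable

theorem sig_meas {m : ℕ} (N : ℕ) (i : Fin (m + 1)) (u : Fin m → ℤ) :
    MeasurableSet {w : Metric.sphere (0 : EE (m + 1)) 1 | (w : EE (m + 1)) ∈ patch N i u} := by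
  have h : MeasurableSet (patch N i u) := by
    unfold patch
    refine MeasurableSet.inter ?_ (MeasurableSet.inter ?_ ?_)
    · exact measurableSet_eq_fun measurable_norm measurable_const
    · have : {ω : EE (m + 1) | ∀ j, |ω j| ≤ |ω i|} = ⋂ j, {ω : EE (m + 1) | |ω j| ≤ |ω i|} := by
        ext ω; simp
      change MeasurableSet {ω : EE (m + 1) | ∀ j, |ω j| ≤ |ω i|}
      rw [this]
      exact MeasurableSet.iInter fun j => measurableSet_le (sig_coord j).abs (sig_coord i).abs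
    · have : {ω : EE (m + 1) | ∀ k, ⌊slope ω i k * 2 ^ N⌋ = u k} =
          ⋂ k, {ω : EE (m + 1) | ⌊slope ω i k * 2 ^ N⌋ = u k} := by
        ext ω; simp
      change MeasurableSet {ω : EE (m + 1) | ∀ k, ⌊slope ω i k * 2 ^ N⌋ = u k}
      rw [this]
      refine MeasurableSet.iInter fun k => measurableSet_eq_fun ?_ measurable_const
      refine Int.measurable_floor.comp ?_
      have hs : Measurable (fun ω : EE (m + 1) => slope ω i k) := by
        have h1 : Measurable (fun ω : EE (m + 1) => (ω (i.succAbove k) : ℝ)) := sig_coord _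
        have h2 : Measurable (fun ω : EE (m + 1) => (ω i : ℝ)) := sig_coord i
        exact h1.div h2
      exact hs.mul_const _
  exact measurable_subtype_coe h

/-- the box at height `j` -/
def sig_bx {m : ℕ} (N : ℕ) (i : Fin (m + 1)) (u : Fin m → ℤ) (j : ℤ) : Set (EE (m + 1)) :=
  {y | ∀ k, (@Fin.insertNth m (fun _ => ℝ) i ((j : ℝ) / 2 ^ N)
      (fun k => ((j : ℝ) / 2 ^ N) * ((u k : ℝ) / 2 ^ N) - 2 / 2 ^ N)) k ≤ y k ∧
    y k ≤ (@Fin.insertNth m (fun _ => ℝ) i (((j : ℝ) + 1) / 2 ^ N)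
      (fun k => ((j : ℝ) / 2 ^ N) * ((u k : ℝ) / 2 ^ N) + 2 / 2 ^ N)) k}

theorem sig_bx_vol {m : ℕ} (N : ℕ) (i : Fin (m + 1)) (u : Fin m → ℤ) (j : ℤ) :
    volume (sig_bx N i u j) = ENNReal.ofReal ((1 / 2 ^ N) * (4 / 2 ^ N) ^ m) := by
  unfold sig_bx
  rw [sig_box, Fin.prod_univ_succAbove _ i]
  simp only [Fin.insertNth_apply_same, Fin.insertNth_apply_succAbove]
  have e1 : ((j : ℝ) + 1) / 2 ^ N - (j : ℝ) / 2 ^ N = 1 / 2 ^ N := by ring
  have e2 : ∀ k : Fin m, ((j : ℝ) / 2 ^ N) * ((u k : ℝ) / 2 ^ N) + 2 / 2 ^ N -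
      (((j : ℝ) / 2 ^ N) * ((u k : ℝ) / 2 ^ N) - 2 / 2 ^ N) = 4 / 2 ^ N := by
    intro k; ring
  simp only [e1, e2, Finset.prod_const, Finset.card_univ, Fintype.card_fin]
  rw [ENNReal.ofReal_mul (by positivity), ENNReal.ofReal_pow (by positivity)]

theorem sig_cover {m : ℕ} (N : ℕ) (i : Fin (m + 1)) (u : Fin m → ℤ) :
    Set.Ioo (0 : ℝ) 1 • ((↑) '' {w : Metric.sphere (0 : EE (m + 1)) 1 |
      (w : EE (m + 1)) ∈ patch N i u} : Set (EE (m + 1))) ⊆
    ⋃ j ∈ Finset.Icc (-(2 : ℤ) ^ N) (2 ^ N), sig_bx N i u j := by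
  rintro y ⟨ρ, hρ, w', ⟨w, hw, rfl⟩, rfl⟩
  obtain ⟨hn, hmax, hsl⟩ := hw
  set ω : EE (m + 1) := (w : EE (m + 1)) with hω
  have hM : (0 : ℝ) < 2 ^ N := by positivity
  have hi0 : ω i ≠ 0 := by
    intro h0
    have : ω = 0 := by
      ext j
      have := hmax j
      rw [h0, abs_zero] at this
      simpa using abs_nonpos_iff.mp this
    rw [this, norm_zero] at hn
    norm_num at hn
  have hi1 : |ω i| ≤ 1 := by
    have := EuclideanSpace.norm_eq ω
    have h2 : ‖ω i‖ ≤ ‖ω‖ := by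
      exact PiLp.norm_apply_le ω i
    rw [hn] at h2
    exact h2
  have hyi : (ρ • ω) i = ρ * ω i := by simp
  have hyabs : |ρ * ω i| ≤ 1 := by
    rw [abs_mul, abs_of_pos hρ.1]
    nlinarith [hρ.1, hρ.2, abs_nonneg (ω i)]
  set j : ℤ := ⌊ρ * ω i * 2 ^ N⌋ with hj
  have hj1 : (j : ℝ) ≤ ρ * ω i * 2 ^ N := Int.floor_le _
  have hj2 : ρ * ω i * 2 ^ N < j + 1 := Int.lt_floor_add_one _
  have hjr : -(2 : ℤ) ^ N ≤ j ∧ j ≤ 2 ^ N := by
    rw [abs_le] at hyabs
    constructor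
    · rw [hj, Int.le_floor]
      push_cast
      nlinarith
    · have : (j : ℝ) ≤ 2 ^ N := by nlinarith
      exact_mod_cast this
  have hjM : |(j : ℝ) / 2 ^ N| ≤ 1 := by
    rw [abs_div, abs_of_pos hM, div_le_one hM, abs_le]
    constructor
    · have := hjr.1
      have h2 : ((-(2 : ℤ) ^ N : ℤ) : ℝ) ≤ (j : ℝ) := by exact_mod_cast this
      push_cast at h2
      exact h2
    · have := hjr.2
      have h2 : (j : ℝ) ≤ (((2 : ℤ) ^ N : ℤ) : ℝ) := by exact_mod_cast this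
      push_cast at h2
      exact h2
  rw [Set.mem_iUnion₂]
  refine ⟨j, Finset.mem_Icc.mpr hjr, ?_⟩
  intro k
  have hd1 : |ρ * ω i - (j : ℝ) / 2 ^ N| ≤ 1 / 2 ^ N := by
    rw [abs_le]
    have e1 : (j : ℝ) / 2 ^ N ≤ ρ * ω i := by rw [div_le_iff₀ hM]; exact hj1
    have e2 : ρ * ω i ≤ (j : ℝ) / 2 ^ N + 1 / 2 ^ N := by
      rw [← add_div, le_div_iff₀ hM]; exact hj2.le
    have e3 : (0 : ℝ) < 1 / 2 ^ N := by positivity
    constructor <;> linarith
  rcases Fin.eq_self_or_eq_succAbove i k with hk | ⟨k', hk⟩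
  · subst hk
    simp only [Fin.insertNth_apply_same]
    rw [hyi]
    constructor
    · rw [div_le_iff₀ hM]; exact hj1
    · rw [le_div_iff₀ hM]; exact hj2.le
  · subst hk
    simp only [Fin.insertNth_apply_succAbove]
    have hyk : (ρ • ω) (i.succAbove k') = (ρ * ω i) * slope ω i k' := by
      unfold slope
      simp
      field_simp
    have hs1 : |slope ω i k'| ≤ 1 := by
      unfold slope
      rw [abs_div, div_le_one (abs_pos.mpr hi0)]
      exact hmax _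
    have hs2 : |slope ω i k' - (u k' : ℝ) / 2 ^ N| ≤ 1 / 2 ^ N := by
      have h1 := hsl k'
      have h2 := Int.floor_le (slope ω i k' * 2 ^ N)
      have h3 := Int.lt_floor_add_one (slope ω i k' * 2 ^ N)
      rw [h1] at h2 h3
      rw [abs_le]
      have e1 : (u k' : ℝ) / 2 ^ N ≤ slope ω i k' := by rw [div_le_iff₀ hM]; exact h2
      have e2 : slope ω i k' ≤ (u k' : ℝ) / 2 ^ N + 1 / 2 ^ N := by
        rw [← add_div, le_div_iff₀ hM]; exact h3.le
      have e3 : (0 : ℝ) < 1 / 2 ^ N := by positivity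
      constructor <;> linarith
    have hkey : |(ρ * ω i) * slope ω i k' - ((j : ℝ) / 2 ^ N) * ((u k' : ℝ) / 2 ^ N)| ≤
        2 / 2 ^ N := by
      have e1 : (ρ * ω i) * slope ω i k' - ((j : ℝ) / 2 ^ N) * ((u k' : ℝ) / 2 ^ N) =
          (ρ * ω i - (j : ℝ) / 2 ^ N) * slope ω i k' +
          ((j : ℝ) / 2 ^ N) * (slope ω i k' - (u k' : ℝ) / 2 ^ N) := by ring
      rw [e1]
      refine (abs_add_le _ _).trans ?_
      rw [abs_mul, abs_mul]
      have e2 : |ρ * ω i - (j : ℝ) / 2 ^ N| * |slope ω i k'| ≤ 1 / 2 ^ N * 1 := by gcongr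
      have e3 : |(j : ℝ) / 2 ^ N| * |slope ω i k' - (u k' : ℝ) / 2 ^ N| ≤ 1 * (1 / 2 ^ N) := by
        gcongr
      have e4 : (2 : ℝ) / 2 ^ N = 1 / 2 ^ N * 1 + 1 * (1 / 2 ^ N) := by ring
      rw [e4]
      linarith
    rw [hyk]
    rw [abs_le] at hkey
    constructor <;> linarith [hkey.1, hkey.2]

theorem st_SIG : ST_SIG := by
  intro m
  refine ⟨(m + 1) * (3 * 4 ^ m), by positivity, ?_⟩
  intro N i u
  rw [Measure.toSphere_apply' _ (sig_meas N i u)]
  have h1 : volume (Set.Ioo (0 : ℝ) 1 • ((↑) '' {w : Metric.sphere (0 : EE (m + 1)) 1 |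
      (w : EE (m + 1)) ∈ patch N i u} : Set (EE (m + 1)))) ≤
      ENNReal.ofReal (3 * 4 ^ m * ((1 / 2) ^ N) ^ m) := by
    refine (measure_mono (sig_cover N i u)).trans ?_
    refine (measure_biUnion_finset_le _ _).trans ?_
    simp only [sig_bx_vol, Finset.sum_const, Int.card_Icc]
    rw [nsmul_eq_mul, ← ENNReal.ofReal_natCast, ← ENNReal.ofReal_mul (by positivity)]
    refine ENNReal.ofReal_le_ofReal ?_
    have hM : (1 : ℝ) ≤ 2 ^ N := one_le_pow₀ (by norm_num)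
    have hcard : (((2 : ℤ) ^ N + 1 - -(2 : ℤ) ^ N).toNat : ℝ) = 2 * 2 ^ N + 1 := by
      have h0 : (0 : ℤ) ≤ (2 : ℤ) ^ N + 1 - -(2 : ℤ) ^ N := by
        have : (0 : ℤ) < (2 : ℤ) ^ N := by positivity
        linarith
      have := Int.toNat_of_nonneg h0
      have h2 : ((((2 : ℤ) ^ N + 1 - -(2 : ℤ) ^ N).toNat : ℤ) : ℝ) =
        (((2 : ℤ) ^ N + 1 - -(2 : ℤ) ^ N : ℤ) : ℝ) := by rw [this]
      push_cast at h2
      rw [h2]
      ring
    rw [hcard]
    have e1 : (4 / (2 : ℝ) ^ N) ^ m = 4 ^ m * ((1 / 2) ^ N) ^ m := by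
      rw [← mul_pow]
      congr 1
      rw [one_div, inv_pow]
      ring
    rw [e1]
    have e2 : (2 * (2 : ℝ) ^ N + 1) * (1 / 2 ^ N) ≤ 3 := by
      rw [mul_one_div, div_le_iff₀ (by positivity)]
      linarith
    calc (2 * (2 : ℝ) ^ N + 1) * (1 / 2 ^ N * (4 ^ m * ((1 / 2) ^ N) ^ m))
        = ((2 * (2 : ℝ) ^ N + 1) * (1 / 2 ^ N)) * (4 ^ m * ((1 / 2) ^ N) ^ m) := by ring
      _ ≤ 3 * (4 ^ m * ((1 / 2) ^ N) ^ m) := by gcongr
      _ = 3 * 4 ^ m * ((1 / 2) ^ N) ^ m := by ring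
  have hd : Module.finrank ℝ (EE (m + 1)) = m + 1 := by simp
  rw [hd]
  refine (mul_le_mul_right h1 _).trans ?_
  rw [← ENNReal.ofReal_natCast, ← ENNReal.ofReal_mul (by positivity)]
  refine ENNReal.ofReal_le_ofReal ?_
  push_cast
  rw [← mul_assoc]

end Pool.Agent.Helper75.KM
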